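import Mathlib

/-!
Pairs `(a, G)`, `a` a singular endomorphism of a finite-dimensional vector space, `G` a group of
automorphisms: the structure of the semigroup generated by `a` and `G`.
-/

set_option autoImplicit false

namespace Pool.Agent.P2a19db

open Module

variable {F V : Type*} [Field F] [AddCommGroup V] [Module F V]

/-- the underlying linear maps of the elements of `G` -/
def units (G : Subgroup (V ≃ₗ[F] V)) : Set (Module.End F V) :=
  {x | ∃ g ∈ G, (g : V →ₗ[F] V) = x}

/-- the semigroup generated by `a` and `G` -/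
def gen (a : Module.End F V) (G : Subgroup (V ≃ₗ[F] V)) : Subsemigroup (Module.End F V) :=
  Subsemigroup.closure ({a} ∪ units G)

/-- `G` is transitive on the subspaces of dimension `d` -/
def TransOn (G : Subgroup (V ≃ₗ[F] V)) (d : ℕ) : Prop :=
  ∀ U W : Submodule F V, finrank F U = d → finrank F W = d →
    ∃ g ∈ G, U.map (g : V →ₗ[F] V) = W

/-- compression of `x` to the range of `a` -/
noncomputable def mm (a x : Module.End F V) : Module.End F (LinearMap.range a) :=
  a.rangeRestrict ∘ₗ x ∘ₗ (LinearMap.range a).subtype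

/-- the endomorphism `v ↦ μ (a v)` -/
noncomputable def ext (a : Module.End F V) (μ : Module.End F (LinearMap.range a)) :
    Module.End F V :=
  (LinearMap.range a).subtype ∘ₗ μ ∘ₗ a.rangeRestrict

@[simp] lemma mm_apply (a x : Module.End F V) (i : LinearMap.range a) :
    ((mm a x i : LinearMap.range a) : V) = a (x (i : V)) := rfl

@[simp] lemma ext_apply (a : Module.End F V) (μ : Module.End F (LinearMap.range a)) (v : V) :
    ext a μ v = (μ ⟨a v, ⟨v, rfl⟩⟩ : LinearMap.range a) := rfl

lemma ext_one (a : Module.End F V) : ext a 1 = a := by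
  ext v
  simp

lemma ext_mul (a : Module.End F V) (μ ν : Module.End F (LinearMap.range a)) (x : Module.End F V) :
    ext a μ * x * ext a ν = ext a (μ * mm a x * ν) := by
  ext v
  simp only [Module.End.mul_apply, ext_apply]
  rfl

lemma mm_ext (a : Module.End F V) (μ : Module.End F (LinearMap.range a)) (x y : Module.End F V) :
    mm a (x * ext a μ * y) = mm a x * μ * mm a y := by
  ext v
  simp only [Module.End.mul_apply, mm_apply, ext_apply]
  rfl

/-- the monoid generated by the compressions of the elements of `G` -/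
noncomputable def Mst (a : Module.End F V) (G : Subgroup (V ≃ₗ[F] V)) :
    Submonoid (Module.End F (LinearMap.range a)) :=
  Submonoid.closure {μ | ∃ g ∈ G, mm a (g : V →ₗ[F] V) = μ}

lemma mm_mem_Mst {a : Module.End F V} {G : Subgroup (V ≃ₗ[F] V)} {g : V ≃ₗ[F] V} (hg : g ∈ G) :
    mm a (g : V →ₗ[F] V) ∈ Mst a G := Submonoid.subset_closure ⟨g, hg, rfl⟩

lemma a_mem {a : Module.End F V} {G : Subgroup (V ≃ₗ[F] V)} : a ∈ gen a G :=
  Subsemigroup.subset_closure (Or.inl rfl)

lemma g_mem {a : Module.End F V} {G : Subgroup (V ≃ₗ[F] V)} {g : V ≃ₗ[F] V} (hg : g ∈ G) :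
    ((g : V →ₗ[F] V) : Module.End F V) ∈ gen a G :=
  Subsemigroup.subset_closure (Or.inr ⟨g, hg, rfl⟩)

lemma ext_mem {a : Module.End F V} {G : Subgroup (V ≃ₗ[F] V)}
    {μ : Module.End F (LinearMap.range a)} (hμ : μ ∈ Mst a G) : ext a μ ∈ gen a G := by
  induction hμ using Submonoid.closure_induction_right with
  | one => rw [ext_one]; exact a_mem
  | mul_right x hx y hy ih =>
    obtain ⟨g, hg, rfl⟩ := hy
    have h := ext_mul a x 1 (g : V →ₗ[F] V)
    rw [mul_one, ext_one] at h
    rw [← h]
    exact mul_mem (mul_mem ih (g_mem hg)) a_mem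

lemma coe_mul' (g h : V ≃ₗ[F] V) :
    (((g * h : V ≃ₗ[F] V) : V →ₗ[F] V) : Module.End F V) = (g : V →ₗ[F] V) * (h : V →ₗ[F] V) := by
  ext v
  rfl

lemma structure_of_mem {a : Module.End F V} {G : Subgroup (V ≃ₗ[F] V)} {b : Module.End F V}
    (hb : b ∈ gen a G) : b ∈ units G ∨ ∃ g ∈ G, ∃ h ∈ G, ∃ μ ∈ Mst a G,
      b = (g : V →ₗ[F] V) * ext a μ * (h : V →ₗ[F] V) := by
  unfold gen at hb
  induction hb using Subsemigroup.closure_induction with
  | mem x hx =>
    rcases hx with hx | hx
    · right
      refine ⟨1, one_mem _, 1, one_mem _, 1, one_mem _, ?_⟩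
      rw [ext_one, Set.mem_singleton_iff.1 hx]
      ext v
      rfl
    · exact Or.inl hx
  | mul x y hx hy ihx ihy =>
    rcases ihx with ⟨g, hg, rfl⟩ | ⟨g, hg, h, hh, μ, hμ, rfl⟩
    · rcases ihy with ⟨g', hg', rfl⟩ | ⟨g', hg', h', hh', ν, hν, rfl⟩
      · left
        exact ⟨g * g', mul_mem hg hg', coe_mul' _ _⟩
      · right
        refine ⟨g * g', mul_mem hg hg', h', hh', ν, hν, ?_⟩
        rw [coe_mul']
        simp only [mul_assoc]
    · rcases ihy with ⟨g', hg', rfl⟩ | ⟨g', hg', h', hh', ν, hν, rfl⟩
      · right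
        refine ⟨g, hg, h * g', mul_mem hh hg', μ, hμ, ?_⟩
        rw [coe_mul']
        simp only [mul_assoc]
      · right
        refine ⟨g, hg, h', hh', μ * mm a ((h * g' : V ≃ₗ[F] V) : V →ₗ[F] V) * ν,
          mul_mem (mul_mem hμ (mm_mem_Mst (mul_mem hh hg'))) hν, ?_⟩
        rw [← ext_mul, coe_mul']
        simp only [mul_assoc]

lemma mm_mem {a : Module.End F V} {G : Subgroup (V ≃ₗ[F] V)} {b : Module.End F V}
    (hb : b ∈ gen a G) : mm a b ∈ Mst a G := by
  rcases structure_of_mem hb with ⟨g, hg, rfl⟩ | ⟨g, hg, h, hh, μ, hμ, rfl⟩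
  · exact mm_mem_Mst hg
  · rw [mm_ext]
    exact mul_mem (mul_mem (mm_mem_Mst hg) hμ) (mm_mem_Mst hh)

/-! ### the general linear group is generated by the maps `1 + p ⊗ φ` -/

lemma exists_two {W : Type*} [AddCommGroup W] [Module F W] (E : Submodule F W) {x y : W}
    (hx : x ∉ E) (hy : y ∉ E) : ∃ φ : W →ₗ[F] F, φ x ≠ 0 ∧ φ y ≠ 0 ∧ E ≤ LinearMap.ker φ := by
  obtain ⟨f, hf, hfE⟩ := Submodule.exists_le_ker_of_notMem hx
  obtain ⟨f', hf', hfE'⟩ := Submodule.exists_le_ker_of_notMem hy
  by_cases h1 : f y = 0
  · by_cases h2 : f' x = 0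
    · refine ⟨f + f', ?_, ?_, ?_⟩
      · simpa [h2] using hf
      · simpa [h1] using hf'
      · intro e he
        have e1 := hfE he
        have e2 := hfE' he
        rw [LinearMap.mem_ker] at e1 e2 ⊢
        simp [e1, e2]
    · exact ⟨f', h2, hf', hfE'⟩
  · exact ⟨f, hf, h1, hfE⟩

lemma gen_top {W : Type*} [AddCommGroup W] [Module F W] [FiniteDimensional F W]
    (U : Subgroup (W ≃ₗ[F] W))
    (hU : ∀ (p : W) (φ : W →ₗ[F] F) (y : W ≃ₗ[F] W), (∀ i, y i = i + φ i • p) → y ∈ U)
    (y : W ≃ₗ[F] W) : y ∈ U := by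
  have main : ∀ (d : ℕ) (y : W ≃ₗ[F] W),
      finrank F W ≤ finrank F (LinearMap.eqLocus (y : W →ₗ[F] W) LinearMap.id) + d → y ∈ U := by
    intro d
    induction d with
    | zero =>
      intro y hy
      have htop : LinearMap.eqLocus (y : W →ₗ[F] W) LinearMap.id = ⊤ := by
        refine Submodule.eq_top_of_finrank_eq ?_
        exact le_antisymm (Submodule.finrank_le _) (by simpa using hy)
      have : y = 1 := by
        ext v
        have hv : v ∈ LinearMap.eqLocus (y : W →ₗ[F] W) LinearMap.id := by rw [htop]; trivial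
        exact hv
      rw [this]
      exact one_mem _
    | succ d ih =>
      intro y hy
      by_cases h1 : ∀ x, y x = x
      · have : y = 1 := by
          ext v
          exact h1 v
        rw [this]
        exact one_mem _
      push Not at h1
      obtain ⟨x, hx⟩ := h1
      set E := LinearMap.eqLocus (y : W →ₗ[F] W) LinearMap.id with hE
      have hxE : x ∉ E := fun h => hx h
      have hyxE : y x ∉ E := fun h => hx (y.injective h)
      obtain ⟨φ0, hφx, hφy, hφE⟩ := exists_two E hxE hyxE
      set φ : W →ₗ[F] F := (φ0 x)⁻¹ • φ0 with hφ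
      have h2 : φ x = 1 := by simp [hφ, hφx]
      have h3 : φ (y x) ≠ 0 := by simp [hφ, hφx, hφy]
      have h4 : ∀ e ∈ E, φ e = 0 := by
        intro e he
        have := hφE he
        rw [LinearMap.mem_ker] at this
        simp [hφ, this]
      let f : W →ₗ[F] W := LinearMap.id + φ.smulRight (y x - x)
      have hf : ∀ i, f i = i + φ i • (y x - x) := fun i => by simp [f]
      have hinj : Function.Injective f := by
        rw [← LinearMap.ker_eq_bot, LinearMap.ker_eq_bot']
        intro i hi
        rw [hf] at hi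
        have h5 := congrArg φ hi
        rw [map_add, map_smul, map_sub, h2, map_zero, smul_eq_mul] at h5
        have h6 : φ i * φ (y x) = 0 := by linear_combination h5
        have h7 : φ i = 0 := by
          rcases mul_eq_zero.1 h6 with h | h
          · exact h
          · exact absurd h h3
        rw [h7, zero_smul, add_zero] at hi
        exact hi
      set D : W ≃ₗ[F] W := LinearEquiv.ofInjectiveEndo f hinj with hD
      have hDf : ∀ i, D i = i + φ i • (y x - x) := fun i => by
        rw [← hf]; rfl
      have hDU : D ∈ U := hU (y x - x) φ D hDf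
      have hDx : D x = y x := by rw [hDf, h2, one_smul]; abel
      have hlt : finrank F E < finrank F (LinearMap.eqLocus ((D⁻¹ * y : W ≃ₗ[F] W) : W →ₗ[F] W)
          LinearMap.id) := by
        refine Submodule.finrank_lt_finrank_of_lt ?_
        refine lt_of_le_of_ne ?_ ?_
        · intro e he
          have he' : y e = e := he
          have : D e = e := by rw [hDf, h4 e he, zero_smul, add_zero]
          change (D⁻¹ * y) e = e
          rw [LinearEquiv.mul_apply, he']
          exact (LinearEquiv.symm_apply_eq D).2 this.symm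
        · intro heq
          apply hxE
          rw [heq]
          change (D⁻¹ * y) x = x
          rw [LinearEquiv.mul_apply]
          exact (LinearEquiv.symm_apply_eq D).2 hDx.symm
      have := ih (D⁻¹ * y) (by omega)
      have h8 : y = D * (D⁻¹ * y) := by group
      rw [h8]
      exact mul_mem hDU this
  exact main (finrank F W) y (by omega)

end Pool.Agent.P2a19db
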