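import Pool.Agent.Lib.P2a19db.UpDown
import Pool.Agent.Lib.P2a19db.Basic

/-!
The lattice of subspaces of a finite vector space, and transitivity on subspaces of complementary dimensions.
-/

set_option autoImplicit false

namespace Pool.Agent.P2a19db

open Module Finset Classical

variable {F V : Type*} [Field F] [AddCommGroup V] [Module F V] [FiniteDimensional F V]

lemma sup_span_of_covBy {A B : Submodule F V} (h : A ⋖ B) {v : V} (hvB : v ∈ B) (hvA : v ∉ A) :
    A ⊔ Submodule.span F {v} = B := by
  rcases h.eq_or_eq (c := A ⊔ Submodule.span F {v}) le_sup_left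
    (sup_le h.le ((Submodule.span_singleton_le_iff_mem v B).2 hvB)) with h1 | h1
  · exfalso
    apply hvA
    rw [← h1]
    exact Submodule.mem_sup_right (Submodule.mem_span_singleton_self v)
  · exact h1

lemma finrank_of_covBy {A B : Submodule F V} (h : A ⋖ B) : finrank F B = finrank F A + 1 := by
  obtain ⟨v, hvB, hvA⟩ := SetLike.exists_of_lt h.lt
  rw [← sup_span_of_covBy h hvB hvA, Submodule.finrank_sup_span_singleton hvA]

/-- the number of points of a projective space -/
noncomputable def nu (q : ℕ) (m : ℕ) : ℝ := ((q : ℝ) ^ m - 1) / (q - 1)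

lemma nu_strictMono {q : ℕ} (hq : 2 ≤ q) : StrictMono (nu q) := by
  have hq' : (1 : ℝ) < q := by exact_mod_cast hq
  intro a b hab
  unfold nu
  have h1 : (q : ℝ) ^ a < (q : ℝ) ^ b := pow_lt_pow_right₀ hq' hab
  exact div_lt_div_of_pos_right (by linarith) (by linarith)

lemma card_mem [Fintype F] [Fintype V] (B : Submodule F V) :
    (univ.filter (fun v => v ∈ B)).card = Fintype.card F ^ finrank F B := by
  rw [← Module.card_eq_pow_finrank (K := F) (V := B), Fintype.card_subtype]

lemma card_covers [Fintype F] [Fintype V] [Fintype (Submodule F V)] (A : Submodule F V) :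
    ((univ.filter (fun B => A ⋖ B)).card : ℝ) = nu (Fintype.card F) (finrank F V - finrank F A) := by
  set q := Fintype.card F with hq
  have hq2 : 2 ≤ q := Fintype.one_lt_card
  have hq' : (1 : ℝ) < q := by exact_mod_cast hq2
  have hn : finrank F A ≤ finrank F V := Submodule.finrank_le A
  have hfib := Finset.card_eq_sum_card_fiberwise (s := univ.filter (fun v : V => v ∉ A))
    (t := univ.filter (fun B => A ⋖ B)) (f := fun v => A ⊔ Submodule.span F {v}) (by
      intro v hv
      rw [mem_coe, mem_filter] at hv
      rw [mem_coe, mem_filter]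
      refine ⟨mem_univ _, ?_⟩
      change A ⋖ A ⊔ Submodule.span F {v}
      rw [sup_comm]
      exact Submodule.covBy_span_singleton_sup hv.2)
  have hterm : ∀ B ∈ univ.filter (fun B => A ⋖ B),
      ((univ.filter (fun v : V => v ∉ A)).filter (fun v => A ⊔ Submodule.span F {v} = B)).card =
        q ^ (finrank F A + 1) - q ^ finrank F A := by
    intro B hB
    rw [mem_filter] at hB
    have hcov := hB.2
    have e : ((univ.filter (fun v : V => v ∉ A)).filter (fun v => A ⊔ Submodule.span F {v} = B)) =
        (univ.filter (fun v => v ∈ B)) \ (univ.filter (fun v => v ∈ A)) := by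
      ext v
      simp only [mem_filter, mem_univ, true_and, mem_sdiff]
      constructor
      · rintro ⟨h1, h2⟩
        refine ⟨?_, h1⟩
        rw [← h2]
        exact Submodule.mem_sup_right (Submodule.mem_span_singleton_self v)
      · rintro ⟨h1, h2⟩
        exact ⟨h2, sup_span_of_covBy hcov h1 h2⟩
    rw [e, card_sdiff_of_subset, card_mem, card_mem, finrank_of_covBy hcov]
    intro v hv
    rw [mem_filter] at hv ⊢
    exact ⟨mem_univ _, hcov.le hv.2⟩
  rw [sum_congr rfl hterm, sum_const, smul_eq_mul] at hfib
  have hcompl : (univ.filter (fun v : V => v ∉ A)).card = q ^ finrank F V - q ^ finrank F A := by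
    have e : univ.filter (fun v : V => v ∉ A) = univ \ (univ.filter (fun v => v ∈ A)) := by
      ext v
      simp
    rw [e, card_sdiff_of_subset (subset_univ _), card_mem, card_univ, Module.card_eq_pow_finrank (K := F)]
  rw [hcompl] at hfib
  have h1 : q ^ finrank F A ≤ q ^ finrank F V := Nat.pow_le_pow_right (by omega) hn
  have h2 : q ^ finrank F A ≤ q ^ (finrank F A + 1) := Nat.pow_le_pow_right (by omega) (by omega)
  have h3 : (q : ℝ) ^ finrank F V - (q : ℝ) ^ finrank F A =
      ((univ.filter (fun B => A ⋖ B)).card : ℝ) * ((q : ℝ) ^ (finrank F A + 1) - (q : ℝ) ^ finrank F A) := by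
    have := congrArg (fun z : ℕ => (z : ℝ)) hfib
    simp only [Nat.cast_mul] at this
    rw [Nat.cast_sub h1, Nat.cast_sub h2] at this
    push_cast at this
    exact this
  unfold nu
  have hqpos : (0 : ℝ) < (q : ℝ) ^ finrank F A := by positivity
  rw [eq_div_iff (by linarith)]
  have h4 : (q : ℝ) ^ finrank F V = (q : ℝ) ^ (finrank F V - finrank F A) * (q : ℝ) ^ finrank F A := by
    rw [← pow_add]
    congr 1
    omega
  rw [h4, pow_succ] at h3
  have h5 : ((q : ℝ) ^ (finrank F V - finrank F A) - 1) * (q : ℝ) ^ finrank F A =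
      (((univ.filter (fun B => A ⋖ B)).card : ℝ) * (q - 1)) * (q : ℝ) ^ finrank F A := by
    linear_combination h3
  exact (mul_right_cancel₀ hqpos.ne' h5).symm

lemma card_lower [Fintype F] [Fintype V] [Fintype (Submodule F V)] (A : Submodule F V) :
    ((univ.filter (fun B => B ⋖ A)).card : ℝ) = nu (Fintype.card F) (finrank F A) := by
  haveI : Finite (Dual F V) := Module.finite_of_finite F
  haveI : Fintype (Dual F V) := Fintype.ofFinite _
  haveI : Finite (Submodule F (Dual F V)) := inferInstance
  haveI : Fintype (Submodule F (Dual F V)) := Fintype.ofFinite _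
  have h := card_covers (F := F) (V := Dual F V) (A.dualAnnihilator)
  have e1 : finrank F (Dual F V) - finrank F A.dualAnnihilator = finrank F A := by
    have := Subspace.finrank_add_finrank_dualAnnihilator_eq A
    rw [Subspace.dual_finrank_eq]
    omega
  rw [e1] at h
  rw [← h]
  congr 1
  let Φ := Subspace.orderIsoFiniteDimensional (K := F) (V := V)
  refine Finset.card_bij (fun B _ => B.dualAnnihilator) ?_ ?_ ?_
  · intro B hB
    rw [mem_filter] at hB ⊢
    refine ⟨mem_univ _, ?_⟩
    have := (apply_covBy_apply_iff Φ).2 hB.2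
    exact toDual_covBy_toDual_iff.1 this
  · intro B _ C _ hBC
    exact Φ.injective (congrArg OrderDual.toDual hBC)
  · intro C hC
    rw [mem_filter] at hC
    refine ⟨Φ.symm (OrderDual.toDual C), ?_, ?_⟩
    · rw [mem_filter]
      refine ⟨mem_univ _, ?_⟩
      rw [← apply_covBy_apply_iff Φ, Φ.apply_symm_apply]
      exact toDual_covBy_toDual_iff.2 hC.2
    · have := Φ.apply_symm_apply (OrderDual.toDual C)
      exact congrArg OrderDual.ofDual this

/-- the group of order automorphisms of the lattice of subspaces induced by `G` -/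
def lat (G : Subgroup (V ≃ₗ[F] V)) : Subgroup (Submodule F V ≃o Submodule F V) where
  carrier := {γ | ∃ g ∈ G, ∀ A, γ A = A.map (g : V →ₗ[F] V)}
  mul_mem' := by
    rintro γ δ ⟨g, hg, h1⟩ ⟨k, hk, h2⟩
    refine ⟨g * k, mul_mem hg hk, fun A => ?_⟩
    change γ (δ A) = _
    rw [h2, h1, ← Submodule.map_comp]
    rfl
  one_mem' := by
    refine ⟨1, one_mem _, fun A => ?_⟩
    change A = _
    exact (Submodule.map_id A).symm
  inv_mem' := by
    rintro γ ⟨g, hg, h1⟩
    refine ⟨g⁻¹, inv_mem hg, fun A => ?_⟩
    change γ.symm A = _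
    rw [OrderIso.symm_apply_eq, h1, ← Submodule.map_comp]
    have : (g : V →ₗ[F] V) ∘ₗ ((g⁻¹ : V ≃ₗ[F] V) : V →ₗ[F] V) = LinearMap.id := by
      ext v
      exact g.apply_symm_apply v
    rw [this, Submodule.map_id]

lemma trans_iff_lat (G : Subgroup (V ≃ₗ[F] V)) (d : ℕ) :
    TransOn G d ↔ TransL (fun A : Submodule F V => finrank F A) (lat G) d := by
  constructor
  · intro h A B hA hB
    obtain ⟨g, hg, h1⟩ := h A B hA hB
    exact ⟨Submodule.orderIsoMapComap g, ⟨g, hg, fun A => rfl⟩, h1⟩
  · intro h A B hA hB
    obtain ⟨γ, ⟨g, hg, h1⟩, h2⟩ := h A B hA hB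
    exact ⟨g, hg, by rw [← h1, h2]⟩

theorem trans_compl [Finite F] (G : Subgroup (V ≃ₗ[F] V)) {r s : ℕ} (hrs : r + s = finrank F V)
    (h : TransOn G r) : TransOn G s := by
  haveI : Fintype F := Fintype.ofFinite F
  haveI : Finite V := Module.finite_of_finite F
  haveI : Fintype V := Fintype.ofFinite V
  haveI : Fintype (Submodule F V) := Fintype.ofFinite _
  have hq2 : 2 ≤ Fintype.card F := Fintype.one_lt_card
  have hfin : ∀ γ ∈ lat G, ∀ A : Submodule F V, finrank F (γ A : Submodule F V) = finrank F A := by
    rintro γ ⟨g, hg, h1⟩ A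
    rw [h1]
    exact LinearEquiv.finrank_map_eq g A
  rw [trans_iff_lat] at h ⊢
  rcases le_total r s with hle | hle
  · -- dual lattice
    let Γ : Subgroup ((Submodule F V)ᵒᵈ ≃o (Submodule F V)ᵒᵈ) :=
      { carrier := {γ | ∃ δ ∈ lat G, ∀ A, γ A = OrderDual.toDual (δ (OrderDual.ofDual A))}
        mul_mem' := by
          rintro γ δ ⟨γ', hγ, h1⟩ ⟨δ', hδ, h2⟩
          refine ⟨γ' * δ', mul_mem hγ hδ, fun A => ?_⟩
          change γ (δ A) = _
          rw [h2, h1]
          rfl
        one_mem' := ⟨1, one_mem _, fun A => rfl⟩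
        inv_mem' := by
          rintro γ ⟨γ', hγ, h1⟩
          refine ⟨γ'⁻¹, inv_mem hγ, fun A => ?_⟩
          change γ.symm A = _
          rw [OrderIso.symm_apply_eq, h1]
          change A = OrderDual.toDual (γ' (γ'.symm (OrderDual.ofDual A)))
          rw [γ'.apply_symm_apply]
          rfl }
    let ρ : (Submodule F V)ᵒᵈ → ℕ := fun A => finrank F V - finrank F (OrderDual.ofDual A : Submodule F V)
    have hbd : ∀ A : Submodule F V, finrank F A ≤ finrank F V := fun A => Submodule.finrank_le A
    have h1 : TransL ρ Γ (finrank F V - r) := by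
      intro A B hA hB
      have hA' : finrank F V - finrank F (OrderDual.ofDual A : Submodule F V) = finrank F V - r := hA
      have hB' : finrank F V - finrank F (OrderDual.ofDual B : Submodule F V) = finrank F V - r := hB
      have e1 := hbd (OrderDual.ofDual A)
      have e2 := hbd (OrderDual.ofDual B)
      obtain ⟨γ, hγ, h2⟩ := h (OrderDual.ofDual A) (OrderDual.ofDual B) (by
        change finrank F (OrderDual.ofDual A : Submodule F V) = r
        omega) (by
        change finrank F (OrderDual.ofDual B : Submodule F V) = r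
        omega)
      refine ⟨γ.dual, ⟨γ, hγ, fun A => rfl⟩, ?_⟩
      change OrderDual.toDual (γ (OrderDual.ofDual A)) = B
      rw [h2]
      rfl
    have h2 : TransL ρ Γ r := by
      refine trans_down (ρ := ρ) (n := finrank F V) (ν := nu (Fintype.card F)) ?_ ?_ ?_
        (nu_strictMono hq2) Γ ?_ (by omega) h1
      · intro A B hAB
        have := finrank_of_covBy (ofDual_covBy_ofDual_iff.2 hAB)
        have e1 := hbd (OrderDual.ofDual A)
        have e2 := hbd (OrderDual.ofDual B)
        change finrank F V - finrank F (OrderDual.ofDual B : Submodule F V) =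
          finrank F V - finrank F (OrderDual.ofDual A : Submodule F V) + 1
        omega
      · intro A
        have e1 := hbd (OrderDual.ofDual A)
        have e3 : finrank F V - ρ A = finrank F (OrderDual.ofDual A : Submodule F V) := by
          change finrank F V - (finrank F V - finrank F (OrderDual.ofDual A : Submodule F V)) = _
          omega
        rw [e3, ← card_lower]
        congr 1
        refine Finset.card_bij (fun B _ => OrderDual.ofDual B) ?_ ?_ ?_
        · intro B hB
          rw [mem_filter] at hB ⊢
          exact ⟨mem_univ _, ofDual_covBy_ofDual_iff.2 hB.2⟩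
        · intro B _ C _ hBC
          exact hBC
        · intro C hC
          rw [mem_filter] at hC
          refine ⟨OrderDual.toDual C, ?_, rfl⟩
          rw [mem_filter]
          exact ⟨mem_univ _, ofDual_covBy_ofDual_iff.1 hC.2⟩
      · intro A
        have e3 : ρ A = finrank F V - finrank F (OrderDual.ofDual A : Submodule F V) := rfl
        rw [e3, ← card_covers]
        congr 1
        refine Finset.card_bij (fun B _ => OrderDual.ofDual B) ?_ ?_ ?_
        · intro B hB
          rw [mem_filter] at hB ⊢
          exact ⟨mem_univ _, ofDual_covBy_ofDual_iff.2 hB.2⟩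
        · intro B _ C _ hBC
          exact hBC
        · intro C hC
          rw [mem_filter] at hC
          refine ⟨OrderDual.toDual C, ?_, rfl⟩
          rw [mem_filter]
          exact ⟨mem_univ _, ofDual_covBy_ofDual_iff.1 hC.2⟩
      · rintro γ ⟨δ, hδ, h3⟩ A
        change finrank F V - finrank F (OrderDual.ofDual (γ A) : Submodule F V) =
          finrank F V - finrank F (OrderDual.ofDual A : Submodule F V)
        rw [h3]
        congr 1
        exact hfin δ hδ _
    intro A B hA hB
    have hA' : finrank F A = s := hA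
    have hB' : finrank F B = s := hB
    obtain ⟨γ, ⟨δ, hδ, h3⟩, h4⟩ := h2 (OrderDual.toDual A) (OrderDual.toDual B) (by
      change finrank F V - finrank F A = r
      omega) (by
      change finrank F V - finrank F B = r
      omega)
    refine ⟨δ, hδ, ?_⟩
    rw [h3] at h4
    exact OrderDual.toDual_inj.1 h4
  · have e : r = finrank F V - s := by omega
    rw [e] at h
    exact trans_down (ρ := fun A : Submodule F V => finrank F A) (n := finrank F V)
      (ν := nu (Fintype.card F)) (fun A B hAB => finrank_of_covBy hAB) card_covers card_lower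
      (nu_strictMono hq2) (lat G) hfin (by omega) h

end Pool.Agent.P2a19db
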