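import Pool.Agent.Lib.P2a19db.Key

/-!
The criterion over an arbitrary field.
-/

set_option autoImplicit false

namespace Pool.Agent.P2a19db

open Module

variable {F V : Type*} [Field F] [AddCommGroup V] [Module F V]

/-- `(a, G)` is an `Aut V`-pair -/
def IsAutPair (a : Module.End F V) (G : Subgroup (V ≃ₗ[F] V)) : Prop :=
  (gen a G : Set (Module.End F V)) \ units G = (gen a ⊤ : Set (Module.End F V)) \ units ⊤

/-- the elements `a g a` of rank `rank a` are regular in the semigroup generated by `a` and `G` -/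
def Reg (a : Module.End F V) (G : Subgroup (V ≃ₗ[F] V)) : Prop :=
  ∀ g ∈ G, finrank F (LinearMap.range (a * (g : V →ₗ[F] V) * a)) = finrank F (LinearMap.range a) →
    ∃ b ∈ gen a G, (a * (g : V →ₗ[F] V) * a) * b * (a * (g : V →ₗ[F] V) * a) =
      a * (g : V →ₗ[F] V) * a

lemma ext_injective (a : Module.End F V) : Function.Injective (ext a) := by
  intro μ ν h
  ext i
  obtain ⟨i, v, rfl⟩ := i
  have := congrArg (fun z : Module.End F V => z v) h
  simpa using this

lemma aga_eq (a : Module.End F V) (g : V ≃ₗ[F] V) :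
    a * (g : V →ₗ[F] V) * a = ext a (mm a (g : V →ₗ[F] V)) := by
  ext v
  rfl

lemma ext_range_le (a : Module.End F V) (μ : Module.End F (LinearMap.range a)) :
    LinearMap.range (ext a μ) ≤ LinearMap.range a := by
  rintro _ ⟨v, rfl⟩
  rw [ext_apply]
  exact Subtype.coe_prop _

lemma not_unit_of_kernel {x : Module.End F V} {v : V} (hv : v ≠ 0) (hx : x v = 0)
    (G : Subgroup (V ≃ₗ[F] V)) : x ∉ units G := by
  rintro ⟨g, -, rfl⟩
  exact hv (g.map_eq_zero_iff.1 hx)

lemma exists_ker_of_mem {a : Module.End F V} {G : Subgroup (V ≃ₗ[F] V)} (hK : LinearMap.ker a ≠ ⊥)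
    {b : Module.End F V} (hb : b ∈ gen a G) (hb' : b ∉ units G) : ∃ v, v ≠ 0 ∧ b v = 0 := by
  obtain ⟨k, hk, hk0⟩ := (Submodule.ne_bot_iff _).1 hK
  rw [LinearMap.mem_ker] at hk
  rcases structure_of_mem hb with h | ⟨g, hg, h, hh, μ, hμ, rfl⟩
  · exact absurd h hb'
  · refine ⟨h.symm k, fun h0 => hk0 (h.symm.map_eq_zero_iff.1 h0), ?_⟩
    change g (ext a μ (h (h.symm k))) = 0
    rw [h.apply_symm_apply]
    have : ext a μ k = 0 := by
      rw [ext_apply]
      have e : (⟨a k, ⟨k, rfl⟩⟩ : LinearMap.range a) = 0 := Subtype.ext hk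
      rw [e, map_zero]
      rfl
    rw [this, map_zero]

lemma gen_mono {a : Module.End F V} {G H : Subgroup (V ≃ₗ[F] V)} (h : G ≤ H) : gen a G ≤ gen a H := by
  refine Subsemigroup.closure_mono ?_
  refine Set.union_subset_union_right _ ?_
  rintro x ⟨g, hg, rfl⟩
  exact ⟨g, h hg, rfl⟩

/-- the semigroup generated by the maps of rank `r` -/
def TT (F V : Type*) [Field F] [AddCommGroup V] [Module F V] (r : ℕ) : Subsemigroup (Module.End F V) :=
  Subsemigroup.closure {x | finrank F (LinearMap.range x) = r}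

lemma finrank_range_equiv_mul (g : V ≃ₗ[F] V) (x : Module.End F V) :
    finrank F (LinearMap.range ((g : V →ₗ[F] V) * x : Module.End F V)) = finrank F (LinearMap.range x) := by
  have : LinearMap.range ((g : V →ₗ[F] V) * x : Module.End F V) = (LinearMap.range x).map (g : V →ₗ[F] V) :=
    LinearMap.range_comp _ _
  rw [this]
  exact LinearEquiv.finrank_map_eq g _

lemma finrank_range_mul_equiv (g : V ≃ₗ[F] V) (x : Module.End F V) :
    finrank F (LinearMap.range (x * (g : V →ₗ[F] V) : Module.End F V)) = finrank F (LinearMap.range x) := by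
  have : LinearMap.range (x * (g : V →ₗ[F] V) : Module.End F V) = LinearMap.range x :=
    LinearMap.range_comp_of_range_eq_top _ (LinearEquiv.range g)
  rw [this]

lemma equiv_mul_mem_TT {r : ℕ} (g : V ≃ₗ[F] V) {t : Module.End F V} (ht : t ∈ TT F V r) :
    ((g : V →ₗ[F] V) * t : Module.End F V) ∈ TT F V r := by
  unfold TT at ht
  induction ht using Subsemigroup.closure_induction with
  | mem x hx =>
    refine Subsemigroup.subset_closure ?_
    change finrank F _ = r
    rw [finrank_range_equiv_mul]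
    exact hx
  | mul x y hx hy ihx ihy =>
    rw [← mul_assoc]
    exact mul_mem ihx hy

lemma mul_equiv_mem_TT {r : ℕ} (g : V ≃ₗ[F] V) {t : Module.End F V} (ht : t ∈ TT F V r) :
    (t * (g : V →ₗ[F] V) : Module.End F V) ∈ TT F V r := by
  unfold TT at ht
  induction ht using Subsemigroup.closure_induction with
  | mem x hx =>
    refine Subsemigroup.subset_closure ?_
    change finrank F _ = r
    rw [finrank_range_mul_equiv]
    exact hx
  | mul x y hx hy ihx ihy =>
    rw [mul_assoc]
    exact mul_mem hx ihy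

lemma gen_top_sub {a : Module.End F V} {b : Module.End F V}
    (hb : b ∈ gen a (⊤ : Subgroup (V ≃ₗ[F] V))) :
    b ∈ units (⊤ : Subgroup (V ≃ₗ[F] V)) ∨ b ∈ TT F V (finrank F (LinearMap.range a)) := by
  unfold gen at hb
  induction hb using Subsemigroup.closure_induction with
  | mem x hx =>
    rcases hx with hx | hx
    · right
      rw [Set.mem_singleton_iff.1 hx]
      exact Subsemigroup.subset_closure rfl
    · exact Or.inl hx
  | mul x y hx hy ihx ihy =>
    rcases ihx with ⟨g, -, rfl⟩ | ihx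
    · rcases ihy with ⟨h, -, rfl⟩ | ihy
      · exact Or.inl ⟨g * h, trivial, coe_mul' _ _⟩
      · exact Or.inr (equiv_mul_mem_TT g ihy)
    · rcases ihy with ⟨h, -, rfl⟩ | ihy
      · exact Or.inr (mul_equiv_mem_TT h ihx)
      · exact Or.inr (mul_mem ihx ihy)

variable [FiniteDimensional F V]

lemma exists_section (a : Module.End F V) : ∃ σ : LinearMap.range a →ₗ[F] V,
    (∀ i : LinearMap.range a, a (σ i) = i) := by
  obtain ⟨σ, hσ⟩ := a.rangeRestrict.exists_rightInverse_of_surjective (LinearMap.range_rangeRestrict a)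
  refine ⟨σ, fun i => ?_⟩
  have := congrArg (fun z : LinearMap.range a →ₗ[F] LinearMap.range a => ((z i : LinearMap.range a) : V)) hσ
  simpa using this

lemma exists_aut_extend (I : Submodule F V) (f : I →ₗ[F] V) (hf : Function.Injective f) :
    ∃ h : V ≃ₗ[F] V, ∀ i : I, h (i : V) = f i := by
  obtain ⟨C, hC⟩ := Submodule.exists_isCompl I
  obtain ⟨C', hC'⟩ := Submodule.exists_isCompl (LinearMap.range f)
  have e1 : I ≃ₗ[F] LinearMap.range f := LinearEquiv.ofInjective f hf
  have h1 : finrank F C = finrank F C' := by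
    have a1 := Submodule.finrank_add_eq_of_isCompl hC
    have a2 := Submodule.finrank_add_eq_of_isCompl hC'
    have a3 := e1.finrank_eq
    omega
  let e := LinearEquiv.ofFinrankEq C C' h1
  refine ⟨(Submodule.prodEquivOfIsCompl I C hC).symm ≪≫ₗ
    (LinearEquiv.prodCongr (LinearEquiv.ofInjective f hf) e) ≪≫ₗ
    (Submodule.prodEquivOfIsCompl (LinearMap.range f) C' hC'), fun i => ?_⟩
  simp

lemma mem_of_rank {a : Module.End F V} {G : Subgroup (V ≃ₗ[F] V)}
    (h1 : TransOn G (finrank F (LinearMap.range a))) (h2 : TransOn G (finrank F (LinearMap.ker a)))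
    (hK : LinearMap.ker a ≠ ⊥) (h3 : Reg a G) {x : Module.End F V}
    (hx : finrank F (LinearMap.range x) = finrank F (LinearMap.range a)) : x ∈ gen a G := by
  -- the group of invertible elements of the monoid of compressions
  let U : Subgroup (LinearMap.range a ≃ₗ[F] LinearMap.range a) :=
    { carrier := {u | ((u : LinearMap.range a →ₗ[F] LinearMap.range a) : Module.End F _) ∈ Mst a G ∧
        (((u⁻¹ : LinearMap.range a ≃ₗ[F] LinearMap.range a) :
          LinearMap.range a →ₗ[F] LinearMap.range a) : Module.End F _) ∈ Mst a G}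
      mul_mem' := by
        rintro u v ⟨hu, hu'⟩ ⟨hv, hv'⟩
        refine ⟨?_, ?_⟩
        · rw [coe_mul']
          exact mul_mem hu hv
        · rw [mul_inv_rev, coe_mul']
          exact mul_mem hv' hu'
      one_mem' := by
        refine ⟨one_mem _, ?_⟩
        rw [inv_one]
        exact one_mem _
      inv_mem' := by
        rintro u ⟨hu, hu'⟩
        exact ⟨hu', by rwa [inv_inv]⟩ }
  have hU : ∀ g ∈ G, ∀ u : LinearMap.range a ≃ₗ[F] LinearMap.range a,
      (u : LinearMap.range a →ₗ[F] LinearMap.range a) = mm a (g : V →ₗ[F] V) → u ∈ U := by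
    intro g hg u hu
    have hrange : LinearMap.range (a * (g : V →ₗ[F] V) * a) = LinearMap.range a := by
      refine le_antisymm (by rw [aga_eq]; exact ext_range_le _ _) ?_
      rintro _ ⟨v, rfl⟩
      obtain ⟨j, hj⟩ := u.surjective ⟨a v, ⟨v, rfl⟩⟩
      obtain ⟨j, w, rfl⟩ := j
      refine ⟨w, ?_⟩
      rw [aga_eq, ext_apply, ← hu]
      exact congrArg (fun z : LinearMap.range a => (z : V)) hj
    obtain ⟨b, hb, hbe⟩ := h3 g hg (by rw [hrange])
    rw [aga_eq, ext_mul] at hbe
    have hbe := ext_injective a hbe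
    rw [← hu] at hbe
    have e : mm a b = ((u⁻¹ : LinearMap.range a ≃ₗ[F] LinearMap.range a) :
        LinearMap.range a →ₗ[F] LinearMap.range a) := by
      ext i
      have := congrArg (fun z : Module.End F (LinearMap.range a) => z (u⁻¹ i)) hbe
      simp only [Module.End.mul_apply, LinearEquiv.coe_coe] at this
      have h5 : u (u⁻¹ i) = i := u.apply_symm_apply i
      rw [h5] at this
      have h6 := congrArg (fun z => u.symm z) this
      simp only [LinearEquiv.symm_apply_apply] at h6
      rw [h6]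
      rfl
    refine ⟨?_, ?_⟩
    · rw [hu]; exact mm_mem_Mst hg
    · rw [← e]; exact mm_mem hb
  have hall : ∀ u : LinearMap.range a ≃ₗ[F] LinearMap.range a, u ∈ U := fun u =>
    gen_top U (fun p φ y hy => key h1 h2 hK U hU p φ y hy) u
  -- move the range and the kernel of `x`
  obtain ⟨h, hh, hhx⟩ := h1 (LinearMap.range x) (LinearMap.range a) hx rfl
  have hkx : finrank F (LinearMap.ker x) = finrank F (LinearMap.ker a) := by
    have a1 := LinearMap.finrank_range_add_finrank_ker x
    have a2 := LinearMap.finrank_range_add_finrank_ker a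
    omega
  obtain ⟨k, hk, hkK⟩ := h2 (LinearMap.ker a) (LinearMap.ker x) rfl hkx
  obtain ⟨σ, hσ⟩ := exists_section a
  have hmem : ∀ v, h (x v) ∈ LinearMap.range a := by
    intro v
    rw [← hhx]
    exact ⟨x v, ⟨v, rfl⟩, rfl⟩
  -- `y = h x k` has range `range a` and kernel `ker a`
  have hyk : ∀ v, a v = 0 → x (k v) = 0 := by
    intro v hv
    have : k v ∈ LinearMap.ker x := by
      rw [← hkK]
      exact ⟨v, hv, rfl⟩
    exact this
  let μ : LinearMap.range a →ₗ[F] LinearMap.range a :=
    LinearMap.codRestrict (LinearMap.range a) ((h : V →ₗ[F] V) ∘ₗ x ∘ₗ (k : V →ₗ[F] V) ∘ₗ σ)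
      (fun i => hmem _)
  have hμ : ∀ i, ((μ i : LinearMap.range a) : V) = h (x (k (σ i))) := fun i => rfl
  have hextμ : ∀ v, ext a μ v = h (x (k v)) := by
    intro v
    rw [ext_apply, hμ]
    rw [← sub_eq_zero, ← map_sub, ← map_sub, ← map_sub]
    rw [hyk, map_zero]
    rw [map_sub, hσ]
    simp
  have hsurj : Function.Surjective μ := by
    intro i
    have hi : (i : V) ∈ (LinearMap.range x).map (h : V →ₗ[F] V) := by rw [hhx]; exact i.2
    obtain ⟨_, ⟨v, rfl⟩, hv⟩ := hi
    refine ⟨⟨a (k.symm v), ⟨k.symm v, rfl⟩⟩, ?_⟩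
    apply Subtype.ext
    have := hextμ (k.symm v)
    rw [ext_apply, k.apply_symm_apply] at this
    rw [this]
    exact hv
  have hinj : Function.Injective μ := LinearMap.injective_iff_surjective.2 hsurj
  have hμM : (μ : Module.End F (LinearMap.range a)) ∈ Mst a G := (hall (LinearEquiv.ofInjectiveEndo μ hinj)).1
  have hx' : x = ((h⁻¹ : V ≃ₗ[F] V) : V →ₗ[F] V) * ext a μ * ((k⁻¹ : V ≃ₗ[F] V) : V →ₗ[F] V) := by
    ext v
    change x v = h⁻¹ (ext a μ (k⁻¹ v))
    rw [hextμ]
    have e1 : k (k⁻¹ v) = v := k.apply_symm_apply v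
    have e2 : ∀ w, h⁻¹ (h w) = w := fun w => h.symm_apply_apply w
    rw [e1, e2]
  rw [hx']
  exact mul_mem (mul_mem (g_mem (inv_mem hh)) (ext_mem hμM)) (g_mem (inv_mem hk))

lemma pair_of {a : Module.End F V} {G : Subgroup (V ≃ₗ[F] V)}
    (h1 : TransOn G (finrank F (LinearMap.range a))) (h2 : TransOn G (finrank F (LinearMap.ker a)))
    (hK : LinearMap.ker a ≠ ⊥) (h3 : Reg a G) : IsAutPair a G := by
  have hT : TT F V (finrank F (LinearMap.range a)) ≤ gen a G := by
    refine (Subsemigroup.closure_le).2 ?_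
    intro x hx
    exact mem_of_rank h1 h2 hK h3 hx
  have hlt : finrank F (LinearMap.range a) < finrank F V := by
    have a2 := LinearMap.finrank_range_add_finrank_ker a
    have : 0 < finrank F (LinearMap.ker a) := by
      rw [Nat.pos_iff_ne_zero]
      intro h0
      exact hK (Submodule.finrank_eq_zero.1 h0)
    omega
  have hTk : ∀ t ∈ TT F V (finrank F (LinearMap.range a)), ∃ v, v ≠ 0 ∧ t v = 0 := by
    intro t ht
    unfold TT at ht
    induction ht using Subsemigroup.closure_induction with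
    | mem x hx =>
      have hx' : finrank F (LinearMap.range x) = finrank F (LinearMap.range a) := hx
      have a2 := LinearMap.finrank_range_add_finrank_ker x
      have : LinearMap.ker x ≠ ⊥ := by
        intro h0
        rw [h0, finrank_bot] at a2
        omega
      obtain ⟨k, hk, hk0⟩ := (Submodule.ne_bot_iff _).1 this
      exact ⟨k, hk0, hk⟩
    | mul x y hx hy ihx ihy =>
      obtain ⟨v, hv, hyv⟩ := ihy
      refine ⟨v, hv, ?_⟩
      rw [Module.End.mul_apply, hyv, map_zero]
  unfold IsAutPair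
  apply Set.Subset.antisymm
  · rintro x ⟨hx, hx'⟩
    obtain ⟨v, hv, hxv⟩ := exists_ker_of_mem hK hx hx'
    exact ⟨gen_mono le_top hx, not_unit_of_kernel hv hxv _⟩
  · rintro x ⟨hx, hx'⟩
    rcases gen_top_sub hx with h | h
    · exact absurd h hx'
    · obtain ⟨v, hv, hxv⟩ := hTk x h
      exact ⟨hT h, not_unit_of_kernel hv hxv _⟩

lemma of_pair {a : Module.End F V} {G : Subgroup (V ≃ₗ[F] V)}
    (hK : LinearMap.ker a ≠ ⊥) (hp : IsAutPair a G) :
    TransOn G (finrank F (LinearMap.range a)) ∧ TransOn G (finrank F (LinearMap.ker a)) ∧ Reg a G := by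
  have hmem : ∀ x : Module.End F V, x ∈ gen a (⊤ : Subgroup (V ≃ₗ[F] V)) → ∀ v, v ≠ 0 → x v = 0 →
      ∃ g ∈ G, ∃ h ∈ G, ∃ μ ∈ Mst a G, x = (g : V →ₗ[F] V) * ext a μ * (h : V →ₗ[F] V) := by
    intro x hx v hv hxv
    have : x ∈ (gen a G : Set (Module.End F V)) \ units G := by
      rw [hp]
      exact ⟨hx, not_unit_of_kernel hv hxv _⟩
    rcases structure_of_mem this.1 with h | h
    · exact absurd h this.2
    · exact h
  have hmem' : ∀ x : Module.End F V, x ∈ gen a (⊤ : Subgroup (V ≃ₗ[F] V)) → ∀ v, v ≠ 0 → x v = 0 →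
      x ∈ gen a G := by
    intro x hx v hv hxv
    have : x ∈ (gen a G : Set (Module.End F V)) \ units G := by
      rw [hp]
      exact ⟨hx, not_unit_of_kernel hv hxv _⟩
    exact this.1
  obtain ⟨k0, hk0, hk00⟩ := (Submodule.ne_bot_iff _).1 hK
  rw [LinearMap.mem_ker] at hk0
  refine ⟨?_, ?_, ?_⟩
  · -- transitivity on ranges
    have hW : ∀ W : Submodule F V, finrank F W = finrank F (LinearMap.range a) →
        ∃ g ∈ G, (LinearMap.range a).map (g : V →ₗ[F] V) = W := by
      intro W hW
      let e := LinearEquiv.ofFinrankEq (LinearMap.range a) W hW.symm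
      obtain ⟨h, hh⟩ := exists_aut_extend (LinearMap.range a) (W.subtype ∘ₗ (e : LinearMap.range a →ₗ[F] W))
        (fun i j hij => e.injective (Subtype.ext hij))
      obtain ⟨g, hg, k, hk, μ, hμ, he⟩ := hmem ((h : V →ₗ[F] V) * a)
        (mul_mem (g_mem (Subgroup.mem_top h)) a_mem) k0 hk00 (by
          rw [Module.End.mul_apply, hk0, map_zero])
      refine ⟨g, hg, ?_⟩
      symm
      refine Submodule.eq_of_le_of_finrank_eq ?_ ?_
      · intro w hw
        obtain ⟨j, hj⟩ := e.surjective ⟨w, hw⟩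
        obtain ⟨j, v, rfl⟩ := j
        have e1 : h (a v) = w := by
          have := hh ⟨a v, ⟨v, rfl⟩⟩
          rw [this]
          exact congrArg (fun z : W => (z : V)) hj
        have e2 := congrArg (fun z : Module.End F V => z v) he
        change h (a v) = g (ext a μ (k v)) at e2
        rw [e1] at e2
        rw [e2]
        exact ⟨_, ext_range_le a μ ⟨_, rfl⟩, rfl⟩
      · rw [hW]
        exact (LinearEquiv.finrank_map_eq g _).symm
    intro U W hU hW'
    obtain ⟨g1, hg1, e1⟩ := hW U hU
    obtain ⟨g2, hg2, e2⟩ := hW W hW'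
    refine ⟨g2 * g1⁻¹, mul_mem hg2 (inv_mem hg1), ?_⟩
    rw [← e1, ← Submodule.map_comp]
    rw [← e2]
    congr 1
    ext v
    change g2 (g1⁻¹ (g1 v)) = g2 v
    congr 1
    exact g1.symm_apply_apply v
  · -- transitivity on kernels
    have hW : ∀ W : Submodule F V, finrank F W = finrank F (LinearMap.ker a) →
        ∃ g ∈ G, W.map (g : V →ₗ[F] V) = LinearMap.ker a := by
      intro W hW
      let e := LinearEquiv.ofFinrankEq W (LinearMap.ker a) hW
      obtain ⟨h, hh⟩ := exists_aut_extend W ((LinearMap.ker a).subtype ∘ₗ (e : W →ₗ[F] LinearMap.ker a))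
        (fun i j hij => e.injective (Subtype.ext hij))
      have hmapW : W.map (h : V →ₗ[F] V) = LinearMap.ker a := by
        refine Submodule.eq_of_le_of_finrank_eq ?_ ?_
        · rintro _ ⟨w, hw, rfl⟩
          have := hh ⟨w, hw⟩
          change h w ∈ _
          change h w = _ at this
          rw [this]
          exact Subtype.coe_prop _
        · rw [← hW]
          exact LinearEquiv.finrank_map_eq h _
      obtain ⟨g, hg, k, hk, μ, hμ, he⟩ := hmem (a * (h : V →ₗ[F] V))
        (mul_mem a_mem (g_mem (Subgroup.mem_top h))) (h.symm k0)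
        (fun h0 => hk00 (h.symm.map_eq_zero_iff.1 h0)) (by
          rw [Module.End.mul_apply]
          change a (h (h.symm k0)) = 0
          rw [h.apply_symm_apply, hk0])
      refine ⟨k, hk, ?_⟩
      symm
      refine Submodule.eq_of_le_of_finrank_eq ?_ ?_
      · intro u hu
        rw [LinearMap.mem_ker] at hu
        have e2 := congrArg (fun z : Module.End F V => z (k.symm u)) he
        change a (h (k.symm u)) = g (ext a μ (k (k.symm u))) at e2
        rw [k.apply_symm_apply] at e2
        have e3 : ext a μ u = 0 := by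
          rw [ext_apply]
          have e : (⟨a u, ⟨u, rfl⟩⟩ : LinearMap.range a) = 0 := Subtype.ext hu
          rw [e, map_zero]
          rfl
        rw [e3, map_zero] at e2
        have e4 : h (k.symm u) ∈ W.map (h : V →ₗ[F] V) := by
          rw [hmapW]
          exact e2
        obtain ⟨w, hw, hwe⟩ := e4
        have e5 : w = k.symm u := h.injective hwe
        refine ⟨k.symm u, by rw [← e5]; exact hw, ?_⟩
        exact k.apply_symm_apply u
      · rw [← hW]
        exact (LinearEquiv.finrank_map_eq k _).symm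
    intro U W hU hW'
    obtain ⟨g1, hg1, e1⟩ := hW U hU
    obtain ⟨g2, hg2, e2⟩ := hW W hW'
    refine ⟨g2⁻¹ * g1, mul_mem (inv_mem hg2) hg1, ?_⟩
    have e3 : (((g2⁻¹ * g1 : V ≃ₗ[F] V) : V →ₗ[F] V)) =
        ((g2⁻¹ : V ≃ₗ[F] V) : V →ₗ[F] V) ∘ₗ (g1 : V →ₗ[F] V) := rfl
    rw [e3, Submodule.map_comp, e1, ← e2, ← Submodule.map_comp]
    have e4 : ((g2⁻¹ : V ≃ₗ[F] V) : V →ₗ[F] V) ∘ₗ (g2 : V →ₗ[F] V) = LinearMap.id := by
      ext v
      exact g2.symm_apply_apply v
    rw [e4, Submodule.map_id]
  · -- regularity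
    intro g hg hr
    obtain ⟨σ, hσ⟩ := exists_section a
    have hrange : LinearMap.range (a * (g : V →ₗ[F] V) * a) = LinearMap.range a := by
      refine Submodule.eq_of_le_of_finrank_eq (by rw [aga_eq]; exact ext_range_le _ _) hr
    have hsurj : Function.Surjective (mm a (g : V →ₗ[F] V)) := by
      intro i
      have hi : (i : V) ∈ LinearMap.range (a * (g : V →ₗ[F] V) * a) := by rw [hrange]; exact i.2
      obtain ⟨v, hv⟩ := hi
      exact ⟨⟨a v, ⟨v, rfl⟩⟩, Subtype.ext hv⟩
    have hinj : Function.Injective (mm a (g : V →ₗ[F] V)) := LinearMap.injective_iff_surjective.2 hsurj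
    let u := LinearEquiv.ofInjectiveEndo (mm a (g : V →ₗ[F] V)) hinj
    have hu : ∀ i, u i = mm a (g : V →ₗ[F] V) i := fun i => rfl
    have hσinj : Function.Injective σ := fun i j hij => by
      have := congrArg a hij
      rw [hσ, hσ] at this
      exact Subtype.ext this
    obtain ⟨h1, hh1⟩ := exists_aut_extend (LinearMap.range a)
      (σ ∘ₗ (u.symm : LinearMap.range a →ₗ[F] LinearMap.range a))
      (hσinj.comp u.symm.injective)
    obtain ⟨h2, hh2⟩ := exists_aut_extend (LinearMap.range a) σ hσinj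
    have hb := hmem' ((h1 : V →ₗ[F] V) * a * (h2 : V →ₗ[F] V))
      (mul_mem (mul_mem (g_mem (Subgroup.mem_top h1)) a_mem) (g_mem (Subgroup.mem_top h2)))
      (h2.symm k0) (fun h0 => hk00 (h2.symm.map_eq_zero_iff.1 h0)) (by
        change h1 (a (h2 (h2.symm k0))) = 0
        rw [h2.apply_symm_apply, hk0, map_zero])
    refine ⟨_, hb, ?_⟩
    rw [aga_eq, ext_mul]
    congr 1
    ext i
    simp only [Module.End.mul_apply]
    set j := mm a (g : V →ₗ[F] V) i with hj
    have e1 : mm a ((h1 : V →ₗ[F] V) * a * (h2 : V →ₗ[F] V)) j = u.symm j := by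
      apply Subtype.ext
      rw [mm_apply]
      change a (h1 (a (h2 (j : V)))) = _
      rw [hh2 j, hσ, hh1 j]
      exact hσ _
    rw [e1]
    have e2 : u.symm j = i := by
      rw [hj, ← hu]
      exact u.symm_apply_apply i
    rw [e2]

/-- The criterion over an arbitrary field. -/
theorem criterion {a : Module.End F V} (ha : ¬ IsUnit a) (G : Subgroup (V ≃ₗ[F] V)) :
    IsAutPair a G ↔ TransOn G (finrank F (LinearMap.range a)) ∧
      TransOn G (finrank F (LinearMap.ker a)) ∧ Reg a G := by
  have hK : LinearMap.ker a ≠ ⊥ := fun h => ha ((LinearMap.isUnit_iff_ker_eq_bot a).2 h)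
  exact ⟨fun h => of_pair hK h, fun h => pair_of h.1 h.2.1 hK h.2.2⟩

end Pool.Agent.P2a19db
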