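import Pool.Agent.Lib.P2a19db.Basic

/-!
The key identity: if `G` is transitive on the subspaces of dimension `rank a` and on those of dimension
`dim ker a`, then the compressions of the elements of `G` generate the general linear group of the range.
-/

set_option autoImplicit false

namespace Pool.Agent.P2a19db

open Module

variable {F V : Type*} [Field F] [AddCommGroup V] [Module F V] [FiniteDimensional F V]

lemma mm_equiv {a x : Module.End F V} (h : ∀ i : LinearMap.range a, a (x (i : V)) = 0 → i = 0) :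
    ∃ u : LinearMap.range a ≃ₗ[F] LinearMap.range a, (u : LinearMap.range a →ₗ[F] LinearMap.range a) = mm a x := by
  have hinj : Function.Injective (mm a x) := by
    rw [← LinearMap.ker_eq_bot, LinearMap.ker_eq_bot']
    intro i hi
    apply h i
    have := congrArg (fun z : LinearMap.range a => (z : V)) hi
    simpa using this
  exact ⟨LinearEquiv.ofInjectiveEndo (mm a x) hinj, rfl⟩

lemma key {a : Module.End F V} {G : Subgroup (V ≃ₗ[F] V)}
    (h1 : TransOn G (finrank F (LinearMap.range a))) (h2 : TransOn G (finrank F (LinearMap.ker a)))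
    (hK : LinearMap.ker a ≠ ⊥)
    (U : Subgroup (LinearMap.range a ≃ₗ[F] LinearMap.range a))
    (hU : ∀ g ∈ G, ∀ u : LinearMap.range a ≃ₗ[F] LinearMap.range a,
      (u : LinearMap.range a →ₗ[F] LinearMap.range a) = mm a (g : V →ₗ[F] V) → u ∈ U)
    (p : LinearMap.range a) (φ : LinearMap.range a →ₗ[F] F)
    (y : LinearMap.range a ≃ₗ[F] LinearMap.range a) (hy : ∀ i, y i = i + φ i • p) : y ∈ U := by
  -- a section of `a`
  obtain ⟨σ, hσ⟩ := a.rangeRestrict.exists_rightInverse_of_surjective (LinearMap.range_rangeRestrict a)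
  have hσa : ∀ i : LinearMap.range a, a (σ i) = i := fun i => by
    have := congrArg (fun z : LinearMap.range a →ₗ[F] LinearMap.range a => ((z i : LinearMap.range a) : V)) hσ
    simpa using this
  obtain ⟨k1, hk1, hk10⟩ := (Submodule.ne_bot_iff _).1 hK
  rw [LinearMap.mem_ker] at hk1
  have hk1σ : k1 ∉ LinearMap.range σ := by
    rintro ⟨i, rfl⟩
    rw [hσa] at hk1
    apply hk10
    have : i = 0 := Subtype.ext hk1
    rw [this, map_zero]
  obtain ⟨ψ0, hψ0, hψσ⟩ := Submodule.exists_le_ker_of_notMem hk1σ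
  set ψ : V →ₗ[F] F := (ψ0 k1)⁻¹ • ψ0 with hψ
  have hψ1 : ψ k1 = 1 := by simp [hψ, hψ0]
  have hψ2 : ∀ i, ψ (σ i) = 0 := fun i => by
    have : ψ0 (σ i) = 0 := hψσ ⟨i, rfl⟩
    simp [hψ, this]
  let τ : V →ₗ[F] V := LinearMap.id - ψ.smulRight (σ p)
  have hτ : ∀ v, τ v = v - ψ v • σ p := fun v => by simp [τ]
  have hτinj : Function.Injective τ := by
    rw [← LinearMap.ker_eq_bot, LinearMap.ker_eq_bot']
    intro v hv
    rw [hτ] at hv
    have := congrArg ψ hv
    rw [map_sub, map_smul, hψ2, smul_zero, sub_zero, map_zero] at this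
    rw [this, zero_smul, sub_zero] at hv
    exact hv
  obtain ⟨h, hh, hhK⟩ := h2 ((LinearMap.ker a).map τ) (LinearMap.ker a)
    (LinearEquiv.finrank_eq (Submodule.equivMapOfInjective τ hτinj (LinearMap.ker a)).symm) rfl
  have hK' : ∀ v, a (h v) = 0 → ∃ k, a k = 0 ∧ τ k = v := by
    intro v hv
    have : h v ∈ LinearMap.ker a := hv
    rw [← hhK] at this
    obtain ⟨w, ⟨k, hk, hkw⟩, hw⟩ := this
    refine ⟨k, hk, ?_⟩
    rw [hkw]
    exact h.injective hw
  have hK'' : ∀ k, a k = 0 → a (h (τ k)) = 0 := by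
    intro k hk
    have : h (τ k) ∈ ((LinearMap.ker a).map τ).map (h : V →ₗ[F] V) := ⟨τ k, ⟨k, hk, rfl⟩, rfl⟩
    rw [hhK] at this
    exact this
  let σ' : LinearMap.range a →ₗ[F] V := σ + φ.smulRight k1
  have hσ' : ∀ i, σ' i = σ i + φ i • k1 := fun i => by simp [σ']
  have hσ'a : ∀ i : LinearMap.range a, a (σ' i) = i := fun i => by
    rw [hσ', map_add, map_smul, hk1, smul_zero, add_zero, hσa]
  have hσinj : Function.Injective σ := fun i j hij => by
    have := congrArg a hij
    rw [hσa, hσa] at this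
    exact Subtype.ext this
  have hσ'inj : Function.Injective σ' := fun i j hij => by
    have := congrArg a hij
    rw [hσ'a, hσ'a] at this
    exact Subtype.ext this
  obtain ⟨g, hg, hgW⟩ := h1 (LinearMap.range a) (LinearMap.range σ) rfl
    (LinearMap.finrank_range_of_inj hσinj)
  obtain ⟨g', hg', hgW'⟩ := h1 (LinearMap.range a) (LinearMap.range σ') rfl
    (LinearMap.finrank_range_of_inj hσ'inj)
  have hgσ : ∀ i : LinearMap.range a, ∃ j, g (i : V) = σ j := by
    intro i
    have : g (i : V) ∈ (LinearMap.range a).map (g : V →ₗ[F] V) := ⟨i, i.2, rfl⟩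
    rw [hgW] at this
    obtain ⟨j, hj⟩ := this
    exact ⟨j, hj.symm⟩
  have hgσ' : ∀ i : LinearMap.range a, ∃ j, g' (i : V) = σ' j := by
    intro i
    have : g' (i : V) ∈ (LinearMap.range a).map (g' : V →ₗ[F] V) := ⟨i, i.2, rfl⟩
    rw [hgW'] at this
    obtain ⟨j, hj⟩ := this
    exact ⟨j, hj.symm⟩
  -- the four compressions
  obtain ⟨u1, hu1⟩ := mm_equiv (a := a) (x := (g : V →ₗ[F] V)) (by
    intro i hi
    obtain ⟨j, hj⟩ := hgσ i
    change a (g (i : V)) = 0 at hi
    rw [hj, hσa] at hi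
    have hj0 : j = 0 := Subtype.ext hi
    rw [hj0, map_zero] at hj
    exact Subtype.ext (g.map_eq_zero_iff.1 hj))
  obtain ⟨u2, hu2⟩ := mm_equiv (a := a) (x := (g' : V →ₗ[F] V)) (by
    intro i hi
    obtain ⟨j, hj⟩ := hgσ' i
    change a (g' (i : V)) = 0 at hi
    rw [hj, hσ'a] at hi
    have hj0 : j = 0 := Subtype.ext hi
    rw [hj0, map_zero] at hj
    exact Subtype.ext (g'.map_eq_zero_iff.1 hj))
  obtain ⟨u3, hu3⟩ := mm_equiv (a := a) (x := ((h * g : V ≃ₗ[F] V) : V →ₗ[F] V)) (by
    intro i hi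
    obtain ⟨j, hj⟩ := hgσ i
    change a (h (g (i : V))) = 0 at hi
    obtain ⟨k, hk, hkv⟩ := hK' _ hi
    rw [hj, hτ] at hkv
    have e1 := congrArg ψ hkv
    rw [map_sub, map_smul, hψ2, hψ2, smul_zero, sub_zero] at e1
    rw [e1, zero_smul, sub_zero] at hkv
    rw [hkv, hσa] at hk
    have hj0 : j = 0 := Subtype.ext hk
    rw [hj0, map_zero] at hj
    exact Subtype.ext (g.map_eq_zero_iff.1 hj))
  obtain ⟨u4, hu4⟩ := mm_equiv (a := a) (x := ((h * g' : V ≃ₗ[F] V) : V →ₗ[F] V)) (by
    intro i hi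
    obtain ⟨j, hj⟩ := hgσ' i
    change a (h (g' (i : V))) = 0 at hi
    obtain ⟨k, hk, hkv⟩ := hK' _ hi
    rw [hj, hτ] at hkv
    have e1 := congrArg ψ hkv
    rw [hσ', map_sub, map_smul, hψ2, smul_zero, sub_zero, map_add, hψ2, zero_add, map_smul, hψ1,
      smul_eq_mul, mul_one] at e1
    have e2 := congrArg a hkv
    rw [hσ'a, map_sub, map_smul, hσa, hk, zero_sub, e1] at e2
    have e3 : y j = 0 := by
      rw [hy]
      apply Subtype.ext
      rw [Submodule.coe_add, Submodule.coe_smul, ← e2]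
      simp
    have hj0 : j = 0 := y.map_eq_zero_iff.1 e3
    rw [hj0, map_zero] at hj
    exact Subtype.ext (g'.map_eq_zero_iff.1 hj))
  have hu1' : ∀ i, ((u1 i : LinearMap.range a) : V) = a (g (i : V)) := fun i => by
    have := congrArg (fun z : LinearMap.range a →ₗ[F] LinearMap.range a => ((z i : LinearMap.range a) : V)) hu1
    simpa using this
  have hu2' : ∀ i, ((u2 i : LinearMap.range a) : V) = a (g' (i : V)) := fun i => by
    have := congrArg (fun z : LinearMap.range a →ₗ[F] LinearMap.range a => ((z i : LinearMap.range a) : V)) hu2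
    simpa using this
  have hu3' : ∀ i, ((u3 i : LinearMap.range a) : V) = a (h (g (i : V))) := fun i => by
    have := congrArg (fun z : LinearMap.range a →ₗ[F] LinearMap.range a => ((z i : LinearMap.range a) : V)) hu3
    simpa using this
  have hu4' : ∀ i, ((u4 i : LinearMap.range a) : V) = a (h (g' (i : V))) := fun i => by
    have := congrArg (fun z : LinearMap.range a →ₗ[F] LinearMap.range a => ((z i : LinearMap.range a) : V)) hu4
    simpa using this
  have hid : u3 * u1⁻¹ * y * u2 = u4 := by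
    ext i
    rw [LinearEquiv.mul_apply, LinearEquiv.mul_apply, LinearEquiv.mul_apply, hu3', hu4']
    set j := u2 i with hj
    obtain ⟨j0, hj0⟩ := hgσ' i
    have ej : j0 = j := by
      apply Subtype.ext
      rw [hj, hu2', hj0, hσ'a]
    rw [ej] at hj0
    set z := u1⁻¹ (y j) with hz
    have hz' : u1 z = y j := by
      rw [hz]
      exact u1.apply_symm_apply (y j)
    obtain ⟨j1, hj1⟩ := hgσ z
    have ej1 : j1 = y j := by
      rw [← hz']
      apply Subtype.ext
      rw [hu1', hj1, hσa]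
    rw [ej1] at hj1
    rw [hj1, hj0]
    rw [← sub_eq_zero, ← map_sub, ← map_sub]
    have e : σ (y j) - σ' j = τ (-(φ j) • k1) := by
      rw [hy, hτ, hσ', map_smul, hψ1, map_add, map_smul]
      simp only [smul_eq_mul, mul_one, neg_smul]
      abel
    rw [e]
    apply hK''
    rw [map_smul, hk1, smul_zero]
  have hy' : y = u1 * u3⁻¹ * u4 * u2⁻¹ := by
    rw [← hid]
    group
  rw [hy']
  exact mul_mem (mul_mem (mul_mem (hU g hg u1 hu1) (inv_mem (hU (h * g) (mul_mem hh hg) u3 hu3)))
    (hU (h * g') (mul_mem hh hg') u4 hu4)) (inv_mem (hU g' hg' u2 hu2))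

end Pool.Agent.P2a19db
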