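import Pool.Agent.Lib.P2a19db.Criterion

/-!
Regularity is automatic over fields which are algebraic over a finite field.
-/

set_option autoImplicit false

namespace Pool.Agent.P2a19db

open Module

variable {F V : Type*} [Field F] [AddCommGroup V] [Module F V] [FiniteDimensional F V]

lemma mm_one_step (a x y : Module.End F V) : mm a (x * a * y) = mm a x * mm a y := by
  have h := mm_ext a 1 x y
  rwa [ext_one, mul_one] at h

lemma reg_of_torsion {a : Module.End F V} {G : Subgroup (V ≃ₗ[F] V)}
    (hT : ∀ u : LinearMap.range a ≃ₗ[F] LinearMap.range a, IsOfFinOrder u) : Reg a G := by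
  intro g hg hr
  have hrange : LinearMap.range (a * (g : V →ₗ[F] V) * a) = LinearMap.range a := by
    refine Submodule.eq_of_le_of_finrank_eq (by rw [aga_eq]; exact ext_range_le _ _) hr
  have hsurj : Function.Surjective (mm a (g : V →ₗ[F] V)) := by
    intro i
    have hi : (i : V) ∈ LinearMap.range (a * (g : V →ₗ[F] V) * a) := by rw [hrange]; exact i.2
    obtain ⟨v, hv⟩ := hi
    exact ⟨⟨a v, ⟨v, rfl⟩⟩, Subtype.ext hv⟩
  have hinj : Function.Injective (mm a (g : V →ₗ[F] V)) := LinearMap.injective_iff_surjective.2 hsurj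
  let u := LinearEquiv.ofInjectiveEndo (mm a (g : V →ₗ[F] V)) hinj
  obtain ⟨n, hn, hun⟩ := isOfFinOrder_iff_pow_eq_one.1 (hT u)
  have hun' : (mm a (g : V →ₗ[F] V)) ^ n = 1 := by
    have hpow : ∀ k : ℕ, (mm a (g : V →ₗ[F] V)) ^ k =
        ((u ^ k : LinearMap.range a ≃ₗ[F] LinearMap.range a) :
          LinearMap.range a →ₗ[F] LinearMap.range a) := by
      intro k
      induction k with
      | zero => rfl
      | succ k ih =>
        rw [pow_succ, pow_succ, ih, coe_mul']
        rfl
    rw [hpow, hun]
    rfl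
  -- the element `g (a g)^j` compresses to the power `j + 1`
  have hb : ∀ j : ℕ, ∃ b ∈ gen a G, mm a b = (mm a (g : V →ₗ[F] V)) ^ (j + 1) := by
    intro j
    induction j with
    | zero => exact ⟨_, g_mem hg, by rw [zero_add, pow_one]⟩
    | succ j ih =>
      obtain ⟨b, hb, hbe⟩ := ih
      refine ⟨b * a * (g : V →ₗ[F] V), mul_mem (mul_mem hb a_mem) (g_mem hg), ?_⟩
      rw [mm_one_step, hbe, pow_succ _ (j + 1)]
  obtain ⟨b, hb, hbe⟩ := hb (2 * n - 2)
  refine ⟨b, hb, ?_⟩
  rw [aga_eq, ext_mul, hbe]
  congr 1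
  have e : 2 * n - 2 + 1 + 1 = n * 2 := by omega
  rw [← pow_succ', e, pow_mul, hun', one_pow, one_mul]

/-- over a field which is algebraic over a prime field of positive characteristic, every automorphism of a
finite-dimensional space has finite order -/
lemma torsion_of_algebraic (p : ℕ) [Fact p.Prime] [Algebra (ZMod p) F] [Algebra.IsAlgebraic (ZMod p) F]
    (u : V ≃ₗ[F] V) : IsOfFinOrder u := by
  let b := Module.finBasis F V
  let n := finrank F V
  let M : Matrix (Fin n) (Fin n) F := LinearMap.toMatrix b b (u : V →ₗ[F] V)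
  let S : Set F := Set.range (fun ij : Fin n × Fin n => M ij.1 ij.2)
  have hS : S.Finite := Set.finite_range _
  haveI : Finite S := hS
  let K := IntermediateField.adjoin (ZMod p) S
  haveI : FiniteDimensional (ZMod p) K :=
    IntermediateField.finiteDimensional_adjoin (fun x _ => (Algebra.IsAlgebraic.isAlgebraic x).isIntegral)
  haveI : Finite K := Module.finite_of_finite (ZMod p)
  have hM : ∀ i j, M i j ∈ K := fun i j =>
    IntermediateField.subset_adjoin (ZMod p) S ⟨(i, j), rfl⟩
  let T : Set (Matrix (Fin n) (Fin n) F) := Set.range (fun A : Matrix (Fin n) (Fin n) K => A.map (fun x => (x : F)))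
  have hT : T.Finite := Set.finite_range _
  have hpow : ∀ k : ℕ, M ^ k ∈ T := by
    intro k
    let N : Matrix (Fin n) (Fin n) K := Matrix.of fun i j => (⟨M i j, hM i j⟩ : K)
    have e : (algebraMap K F).mapMatrix N = M := by
      ext i j
      rfl
    refine ⟨N ^ k, ?_⟩
    change (algebraMap K F).mapMatrix (N ^ k) = M ^ k
    rw [map_pow, e]
  have hMpow : ∀ k : ℕ, LinearMap.toMatrix b b ((u ^ k : V ≃ₗ[F] V) : V →ₗ[F] V) = M ^ k := by
    intro k
    induction k with
    | zero =>
      rw [pow_zero, pow_zero]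
      exact LinearMap.toMatrix_one b
    | succ k ih =>
      rw [pow_succ, pow_succ, ← ih]
      exact LinearMap.toMatrix_mul b _ _
  by_contra hu
  have hinj := injective_pow_iff_not_isOfFinOrder.2 hu
  have hinj2 : Function.Injective (fun k : ℕ => M ^ k) := by
    intro k l hkl
    simp only at hkl
    rw [← hMpow, ← hMpow] at hkl
    have := (LinearMap.toMatrix b b).injective hkl
    exact hinj (LinearEquiv.toLinearMap_injective this)
  have : (Set.range (fun k : ℕ => M ^ k)).Finite := hT.subset (by
    rintro _ ⟨k, rfl⟩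
    exact hpow k)
  exact (Set.infinite_range_of_injective hinj2) this

lemma torsion_of_finite [Finite F] (u : V ≃ₗ[F] V) : IsOfFinOrder u := by
  haveI : Finite V := Module.finite_of_finite F
  haveI : Finite (V ≃ₗ[F] V) := Finite.of_injective (fun u : V ≃ₗ[F] V => (u : V → V))
    DFunLike.coe_injective
  exact isOfFinOrder_of_finite u

end Pool.Agent.P2a19db
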