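import Mathlib

/-!
A finite modular lattice with a rank function, in which the numbers of upper and lower covers of an element of
rank `j` are `ν (n - j)` and `ν j` for a strictly increasing `ν`: a group of automorphisms which is transitive on the
elements of rank `n - i` is transitive on those of rank `i`, if `2 i ≤ n`.
-/

set_option autoImplicit false

namespace Pool.Agent.P2a19db

open Finset Classical

variable {L : Type*} [Lattice L] [IsModularLattice L] [Fintype L]

/-- sum over the lower covers -/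
noncomputable def up : (L → ℝ) →ₗ[ℝ] (L → ℝ) where
  toFun f W := ∑ A ∈ univ.filter (fun A => A ⋖ W), f A
  map_add' f g := by
    ext W
    simp [sum_add_distrib]
  map_smul' c f := by
    ext W
    simp [mul_sum]

/-- sum over the upper covers -/
noncomputable def down : (L → ℝ) →ₗ[ℝ] (L → ℝ) where
  toFun f W := ∑ A ∈ univ.filter (fun A => W ⋖ A), f A
  map_add' f g := by
    ext W
    simp [sum_add_distrib]
  map_smul' c f := by
    ext W
    simp [mul_sum]

lemma up_apply (f : L → ℝ) (W : L) : up f W = ∑ A ∈ univ.filter (fun A => A ⋖ W), f A := rfl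

lemma down_apply (f : L → ℝ) (W : L) : down f W = ∑ A ∈ univ.filter (fun A => W ⋖ A), f A := rfl

lemma adj (f g : L → ℝ) : ∑ W, up f W * g W = ∑ W, f W * down g W := by
  simp only [up_apply, down_apply, sum_mul, mul_sum, sum_filter]
  rw [sum_comm]
  refine sum_congr rfl fun A _ => sum_congr rfl fun B _ => ?_
  split_ifs <;> ring

/-- the number of common upper covers of two different elements is the number of common lower covers -/
lemma common {A C : L} (h : C ≠ A) :
    (univ.filter (fun B => A ⋖ B ∧ C ⋖ B)).card = (univ.filter (fun B => B ⋖ A ∧ B ⋖ C)).card := by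
  have hup : ∀ B, A ⋖ B → C ⋖ B → A ⊔ C = B := by
    intro B h1 h2
    rcases h1.eq_or_eq le_sup_left (sup_le h1.le h2.le) with h3 | h3
    · exfalso
      have : C ≤ A := by rw [← h3]; exact le_sup_right
      rcases h2.eq_or_eq this h1.le with h4 | h4
      · exact h h4.symm
      · exact h1.lt.ne h4
    · exact h3
  have hdown : ∀ B, B ⋖ A → B ⋖ C → A ⊓ C = B := by
    intro B h1 h2
    rcases h1.eq_or_eq (le_inf h1.le h2.le) inf_le_left with h3 | h3
    · exact h3
    · exfalso
      have : A ≤ C := by rw [← h3]; exact inf_le_right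
      rcases h2.eq_or_eq h1.le this with h4 | h4
      · exact h1.lt.ne h4.symm
      · exact h h4.symm
  by_cases hc : A ⋖ A ⊔ C ∧ C ⋖ A ⊔ C
  · have hd : A ⊓ C ⋖ A ∧ A ⊓ C ⋖ C := by
      refine ⟨?_, inf_covBy_of_covBy_sup_left hc.1⟩
      exact inf_covBy_of_covBy_sup_right hc.2
    have e1 : univ.filter (fun B => A ⋖ B ∧ C ⋖ B) = {A ⊔ C} := by
      ext B
      simp only [mem_filter, mem_univ, true_and, mem_singleton]
      constructor
      · rintro ⟨h1, h2⟩
        exact (hup B h1 h2).symm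
      · rintro rfl
        exact hc
    have e2 : univ.filter (fun B => B ⋖ A ∧ B ⋖ C) = {A ⊓ C} := by
      ext B
      simp only [mem_filter, mem_univ, true_and, mem_singleton]
      constructor
      · rintro ⟨h1, h2⟩
        exact (hdown B h1 h2).symm
      · rintro rfl
        exact hd
    rw [e1, e2, card_singleton, card_singleton]
  · have e1 : univ.filter (fun B => A ⋖ B ∧ C ⋖ B) = ∅ := by
      rw [filter_eq_empty_iff]
      rintro B - ⟨h1, h2⟩
      apply hc
      rw [hup B h1 h2]
      exact ⟨h1, h2⟩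
    have e2 : univ.filter (fun B => B ⋖ A ∧ B ⋖ C) = ∅ := by
      rw [filter_eq_empty_iff]
      rintro B - ⟨h1, h2⟩
      apply hc
      have e := hdown B h1 h2
      rw [← e] at h1 h2
      exact ⟨covBy_sup_of_inf_covBy_right h2, covBy_sup_of_inf_covBy_left h1⟩
    rw [e1, e2]

lemma comm_rel (f : L → ℝ) (A : L) :
    down (up f) A - up (down f) A =
      (((univ.filter (fun B => A ⋖ B)).card : ℝ) - ((univ.filter (fun B => B ⋖ A)).card : ℝ)) * f A := by
  have e1 : down (up f) A = ∑ C, ((univ.filter (fun B => A ⋖ B ∧ C ⋖ B)).card : ℝ) * f C := by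
    simp only [up_apply, down_apply, sum_filter, card_filter, Nat.cast_sum, sum_mul]
    have : ∀ B : L, (if A ⋖ B then ∑ C, (if C ⋖ B then f C else 0) else 0) =
        ∑ C, ((if A ⋖ B ∧ C ⋖ B then (1 : ℕ) else 0 : ℕ) : ℝ) * f C := by
      intro B
      split_ifs with h
      · refine sum_congr rfl fun C _ => ?_
        simp only [h, true_and]
        split_ifs <;> simp
      · symm
        refine sum_eq_zero fun C _ => ?_
        simp [h]
    rw [sum_congr rfl fun B _ => this B, sum_comm]
  have e2 : up (down f) A = ∑ C, ((univ.filter (fun B => B ⋖ A ∧ B ⋖ C)).card : ℝ) * f C := by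
    simp only [up_apply, down_apply, sum_filter, card_filter, Nat.cast_sum, sum_mul]
    have : ∀ B : L, (if B ⋖ A then ∑ C, (if B ⋖ C then f C else 0) else 0) =
        ∑ C, ((if B ⋖ A ∧ B ⋖ C then (1 : ℕ) else 0 : ℕ) : ℝ) * f C := by
      intro B
      split_ifs with h
      · refine sum_congr rfl fun C _ => ?_
        simp only [h, true_and]
        split_ifs <;> simp
      · symm
        refine sum_eq_zero fun C _ => ?_
        simp [h]
    rw [sum_congr rfl fun B _ => this B, sum_comm]
  rw [e1, e2, ← sum_sub_distrib]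
  rw [sum_eq_single A]
  · simp only [and_self]
    ring
  · intro C _ hC
    rw [common hC]
    ring
  · intro h
    exact absurd (mem_univ A) h

/-- functions supported on the elements of rank `j` -/
def Lev (ρ : L → ℕ) (j : ℕ) (f : L → ℝ) : Prop := ∀ W, ρ W ≠ j → f W = 0

section
variable {ρ : L → ℕ} {n : ℕ} {ν : ℕ → ℝ}

lemma up_Lev (hρ : ∀ A B : L, A ⋖ B → ρ B = ρ A + 1) {j : ℕ} {f : L → ℝ} (hf : Lev ρ j f) :
    Lev ρ (j + 1) (up f) := by
  intro W hW
  rw [up_apply]
  refine sum_eq_zero fun A hA => ?_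
  rw [mem_filter] at hA
  have := hρ A W hA.2
  exact hf A (by omega)

lemma updown_Lev (hρ : ∀ A B : L, A ⋖ B → ρ B = ρ A + 1) {j : ℕ} {f : L → ℝ} (hf : Lev ρ j f) :
    Lev ρ j (up (down f)) := by
  intro W hW
  rw [up_apply]
  refine sum_eq_zero fun A hA => ?_
  rw [mem_filter] at hA
  rw [down_apply]
  refine sum_eq_zero fun B hB => ?_
  rw [mem_filter] at hB
  have h1 := hρ A W hA.2
  have h2 := hρ A B hB.2
  exact hf B (by omega)

lemma comm_Lev (hp : ∀ A : L, ((univ.filter (fun B => A ⋖ B)).card : ℝ) = ν (n - ρ A))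
    (hh : ∀ A : L, ((univ.filter (fun B => B ⋖ A)).card : ℝ) = ν (ρ A)) {j : ℕ} {f : L → ℝ}
    (hf : Lev ρ j f) : down (up f) = up (down f) + (ν (n - j) - ν j) • f := by
  ext A
  have h := comm_rel f A
  rw [hp, hh] at h
  simp only [Pi.add_apply, Pi.smul_apply, smul_eq_mul]
  by_cases hA : ρ A = j
  · rw [hA] at h
    linarith
  · rw [hf A hA] at h ⊢
    linarith

lemma pow_Lev (hρ : ∀ A B : L, A ⋖ B → ρ B = ρ A + 1) {i : ℕ} {f : L → ℝ} (hf : Lev ρ i f) (k : ℕ) :
    Lev ρ (i + k) ((up ^ k) f) := by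
  induction k with
  | zero => simpa using hf
  | succ k ih =>
    rw [pow_succ', Module.End.mul_apply]
    exact up_Lev hρ ih

lemma down_pow (hρ : ∀ A B : L, A ⋖ B → ρ B = ρ A + 1)
    (hp : ∀ A : L, ((univ.filter (fun B => A ⋖ B)).card : ℝ) = ν (n - ρ A))
    (hh : ∀ A : L, ((univ.filter (fun B => B ⋖ A)).card : ℝ) = ν (ρ A)) {i : ℕ} {f : L → ℝ}
    (hf : Lev ρ i f) (k : ℕ) :
    down ((up ^ (k + 1)) f) = (up ^ (k + 1)) (down f) +
      (∑ t ∈ range (k + 1), (ν (n - (i + t)) - ν (i + t))) • (up ^ k) f := by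
  induction k with
  | zero =>
    simp only [zero_add, pow_one, pow_zero, Module.End.one_apply, sum_range_one, add_zero]
    exact comm_Lev hp hh hf
  | succ k ih =>
    have e : (up ^ (k + 1 + 1)) f = up ((up ^ (k + 1)) f) := by
      rw [pow_succ' up (k + 1), Module.End.mul_apply]
    rw [e, comm_Lev hp hh (pow_Lev hρ hf (k + 1)), ih, map_add, map_smul]
    have e2 : (up ^ (k + 1 + 1)) (down f) = up ((up ^ (k + 1)) (down f)) := by
      rw [pow_succ' up (k + 1), Module.End.mul_apply]
    have e3 : (up ^ (k + 1)) f = up ((up ^ k) f) := by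
      rw [pow_succ' up k, Module.End.mul_apply]
    rw [e2, ← e3, sum_range_succ _ (k + 1), add_smul]
    abel

lemma pos_sum (hν : StrictMono ν) {i k : ℕ} (hk : 2 * i + (k + 1) ≤ n) :
    0 < ∑ t ∈ range (k + 1), (ν (n - (i + t)) - ν (i + t)) := by
  rw [sum_sub_distrib, ← sum_range_reflect (fun t => ν (n - (i + t))) (k + 1), ← sum_sub_distrib]
  refine sum_pos (fun t ht => ?_) ⟨0, by simp⟩
  rw [mem_range] at ht
  have : i + t < n - (i + (k + 1 - 1 - t)) := by omega
  have := hν this
  linarith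

lemma inj_pow (hρ : ∀ A B : L, A ⋖ B → ρ B = ρ A + 1)
    (hp : ∀ A : L, ((univ.filter (fun B => A ⋖ B)).card : ℝ) = ν (n - ρ A))
    (hh : ∀ A : L, ((univ.filter (fun B => B ⋖ A)).card : ℝ) = ν (ρ A)) (hν : StrictMono ν) {i : ℕ}
    (k : ℕ) (hk : 2 * i + k ≤ n) {f : L → ℝ} (hf : Lev ρ i f) (h0 : (down ^ k) ((up ^ k) f) = 0) :
    f = 0 := by
  induction k generalizing f with
  | zero => simpa using h0
  | succ k ih =>
    have e : (down ^ (k + 1)) ((up ^ (k + 1)) f) = (down ^ k) (down ((up ^ (k + 1)) f)) := by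
      rw [pow_succ, Module.End.mul_apply]
    rw [e, down_pow hρ hp hh hf k] at h0
    set s := ∑ t ∈ range (k + 1), (ν (n - (i + t)) - ν (i + t)) with hs
    have hspos : 0 < s := pos_sum hν hk
    have e2 : (up ^ (k + 1)) (down f) + s • (up ^ k) f = (up ^ k) (up (down f) + s • f) := by
      rw [map_add, map_smul, pow_succ, Module.End.mul_apply]
    rw [e2] at h0
    have hlev : Lev ρ i (up (down f) + s • f) := by
      intro W hW
      simp only [Pi.add_apply, Pi.smul_apply, smul_eq_mul]
      rw [updown_Lev hρ hf W hW, hf W hW]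
      ring
    have h1 := ih (by omega) hlev h0
    have h2 : ∑ W, (up (down f) + s • f) W * f W = 0 := by
      rw [h1]
      simp
    have h3 : ∑ W, (up (down f) + s • f) W * f W = ∑ W, down f W * down f W + s * ∑ W, f W * f W := by
      rw [← adj, mul_sum, ← sum_add_distrib]
      refine sum_congr rfl fun W _ => ?_
      simp only [Pi.add_apply, Pi.smul_apply, smul_eq_mul]
      ring
    rw [h3] at h2
    have h4 : 0 ≤ ∑ W, down f W * down f W := sum_nonneg fun W _ => mul_self_nonneg _
    have h5 : 0 ≤ ∑ W, f W * f W := sum_nonneg fun W _ => mul_self_nonneg _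
    have h6 : ∑ W, f W * f W = 0 := by
      by_contra hne
      have : 0 < ∑ W, f W * f W := lt_of_le_of_ne h5 (Ne.symm hne)
      have := mul_pos hspos this
      linarith
    have h7 := (sum_eq_zero_iff_of_nonneg fun W _ => mul_self_nonneg (f W)).1 h6
    ext W
    exact mul_self_eq_zero.1 (h7 W (mem_univ W))

lemma up_inv (γ : L ≃o L) {f : L → ℝ} (hf : ∀ A, f (γ A) = f A) (W : L) : up f (γ W) = up f W := by
  rw [up_apply, up_apply]
  symm
  refine sum_bij (fun A _ => γ A) ?_ ?_ ?_ ?_
  · intro A hA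
    rw [mem_filter] at hA ⊢
    exact ⟨mem_univ _, (apply_covBy_apply_iff γ).2 hA.2⟩
  · intro A _ B _ h
    exact γ.injective h
  · intro B hB
    rw [mem_filter] at hB
    refine ⟨γ.symm B, ?_, γ.apply_symm_apply B⟩
    rw [mem_filter]
    refine ⟨mem_univ _, ?_⟩
    have := (apply_covBy_apply_iff γ.symm).2 hB.2
    rwa [γ.symm_apply_apply] at this
  · intro A _
    exact (hf A).symm

lemma up_pow_inv (γ : L ≃o L) {f : L → ℝ} (hf : ∀ A, f (γ A) = f A) (k : ℕ) (W : L) :
    (up ^ k) f (γ W) = (up ^ k) f W := by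
  induction k generalizing W with
  | zero => simpa using hf W
  | succ k ih =>
    rw [pow_succ', Module.End.mul_apply]
    exact up_inv γ ih W

/-- transitivity on the elements of rank `j` -/
def TransL (ρ : L → ℕ) (Γ : Subgroup (L ≃o L)) (j : ℕ) : Prop :=
  ∀ A B : L, ρ A = j → ρ B = j → ∃ γ ∈ Γ, γ A = B

theorem trans_down (hρ : ∀ A B : L, A ⋖ B → ρ B = ρ A + 1)
    (hp : ∀ A : L, ((univ.filter (fun B => A ⋖ B)).card : ℝ) = ν (n - ρ A))
    (hh : ∀ A : L, ((univ.filter (fun B => B ⋖ A)).card : ℝ) = ν (ρ A)) (hν : StrictMono ν)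
    (Γ : Subgroup (L ≃o L)) (hΓ : ∀ γ ∈ Γ, ∀ A, ρ (γ A) = ρ A) {i : ℕ} (hi : 2 * i ≤ n)
    (h : TransL ρ Γ (n - i)) : TransL ρ Γ i := by
  intro A0 B0 hA0 hB0
  by_contra hne
  set k := n - 2 * i with hk
  have hik : i + k = n - i := by omega
  -- the indicator of the orbit, and of the level
  let f : L → ℝ := fun B => if ∃ γ ∈ Γ, γ A0 = B then 1 else 0
  let e : L → ℝ := fun B => if ρ B = i then 1 else 0
  have hfL : Lev ρ i f := by
    intro W hW
    simp only [f]
    rw [if_neg]
    rintro ⟨γ, hγ, rfl⟩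
    exact hW (by rw [hΓ γ hγ, hA0])
  have heL : Lev ρ i e := by
    intro W hW
    simp only [e]
    rw [if_neg hW]
  have hfΓ : ∀ γ ∈ Γ, ∀ A, f (γ A) = f A := by
    intro γ hγ A
    simp only [f]
    refine if_congr ?_ rfl rfl
    constructor
    · rintro ⟨δ, hδ, h1⟩
      refine ⟨γ⁻¹ * δ, mul_mem (inv_mem hγ) hδ, ?_⟩
      change γ⁻¹ (δ A0) = A
      rw [h1]
      exact γ.symm_apply_apply A
    · rintro ⟨δ, hδ, h1⟩
      refine ⟨γ * δ, mul_mem hγ hδ, ?_⟩
      change γ (δ A0) = γ A
      rw [h1]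
  have heΓ : ∀ γ ∈ Γ, ∀ A, e (γ A) = e A := by
    intro γ hγ A
    simp only [e]
    rw [hΓ γ hγ]
  have hconst : ∀ g : L → ℝ, Lev ρ i g → (∀ γ ∈ Γ, ∀ A, g (γ A) = g A) →
      ∃ c : ℝ, ∀ W, (up ^ k) g W = if ρ W = n - i then c else 0 := by
    intro g hg hgΓ
    by_cases hW : ∃ W0, ρ W0 = n - i
    · obtain ⟨W0, hW0⟩ := hW
      refine ⟨(up ^ k) g W0, fun W => ?_⟩
      split_ifs with h1
      · obtain ⟨γ, hγ, h2⟩ := h W0 W hW0 h1
        rw [← h2]
        exact up_pow_inv γ (hgΓ γ hγ) k W0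
      · have := pow_Lev hρ hg k
        rw [hik] at this
        exact this W h1
    · push Not at hW
      refine ⟨0, fun W => ?_⟩
      rw [if_neg (hW W)]
      have := pow_Lev hρ hg k
      rw [hik] at this
      exact this W (hW W)
  obtain ⟨c, hc⟩ := hconst f hfL hfΓ
  obtain ⟨c', hc'⟩ := hconst e heL heΓ
  have hzero : ∀ g : L → ℝ, Lev ρ i g → (up ^ k) g = 0 → g = 0 := by
    intro g hg hg0
    refine inj_pow hρ hp hh hν k (by omega) hg ?_
    rw [hg0, map_zero]
  have hcomb : c' • f - c • e = 0 := by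
    refine hzero _ ?_ ?_
    · intro W hW
      simp only [Pi.sub_apply, Pi.smul_apply, smul_eq_mul]
      rw [hfL W hW, heL W hW]
      ring
    · ext W
      rw [map_sub, map_smul, map_smul]
      simp only [Pi.sub_apply, Pi.smul_apply, smul_eq_mul, Pi.zero_apply]
      rw [hc, hc']
      split_ifs <;> ring
  have hfA : f A0 = 1 := by
    simp only [f]
    rw [if_pos ⟨1, one_mem _, rfl⟩]
  have hfB : f B0 = 0 := by
    simp only [f]
    rw [if_neg]
    exact hne
  have heB : e B0 = 1 := by simp only [e]; rw [if_pos hB0]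
  have heA : e A0 = 1 := by simp only [e]; rw [if_pos hA0]
  have h1 := congrArg (fun z : L → ℝ => z B0) hcomb
  have h2 := congrArg (fun z : L → ℝ => z A0) hcomb
  simp only [Pi.sub_apply, Pi.smul_apply, smul_eq_mul, Pi.zero_apply] at h1 h2
  rw [hfB, heB] at h1
  rw [hfA, heA] at h2
  have hc0 : c = 0 := by linarith
  have hc'0 : c' = 0 := by linarith
  have he0 : e = 0 := by
    refine hzero e heL ?_
    ext W
    rw [hc', hc'0]
    simp
  have := congrArg (fun z : L → ℝ => z A0) he0
  simp only [Pi.zero_apply] at this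
  rw [heA] at this
  norm_num at this

end

end Pool.Agent.P2a19db
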